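import Pool.Agent.H14Cops.Robber

/-!
A compact geodesic metric space with finite doubling constant and infinite cop number.

Construction (see the imported files).  Let `D` be the digraph on `ZMod 5` with arcs `v → 2 v`,
`v → 2 v + 1`.  For every level `i ≥ 1` let `Γ_i` be the metric graph fibred over a circle of
length `4` whose vertices sit over the odd multiples of `2 ^ (-i)`, with a copy of the vertex set
of `D` over each of them, and whose edges are the arcs of `D`.  The space is the fibre product over
the circle of all `Γ_i`, with its path metric (realised here as an ultralimit of finite graphs).
At every scale at most one coarse level branches, hence the space is doubling.  Against `k` cops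
the robber climbs for ever at full speed, and at the vertices of `Γ_i` he dodges cop `i`: two
different arcs leaving a vertex of `D` have heads without a common out-neighbour and with no other
common in-neighbour, so a single cop cannot threaten both of them.
-/

namespace Pool.Agent.Results.MP_f04f62_co.DoublingInfiniteCops

open Pool.Agent.H14Cops

/-- Some compact geodesic metric space with finite doubling constant has infinite cop number.  In
fact on this space the robber has, for every `k`, a strategy which keeps `k` cops at distance at
least some fixed `ε > 0` for ever. -/
theorem result : ∃ (X : Type) (_ : MetricSpace X),
    CompactSpace X ∧ IsGeodesic X ∧ (∃ N : ℕ, DoublingConstLE X N) ∧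
      copNumber X = ⊤ ∧ ∀ k : ℕ, RobberEvades X k :=
  ⟨XX, inferInstance, XX_compact, XX_geodesic, ⟨Ndoub, XX_doubling⟩,
    copNumber_eq_top XX_evades, XX_evades⟩

end Pool.Agent.Results.MP_f04f62_co.DoublingInfiniteCops
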